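import Pool.Agent.Helper79.GL4.GoalsA

/-! Packet JB of MP_27a5f8_al. -/

set_option autoImplicit false

namespace Pool.Agent.Helper23.GL4JB

open Module Submodule GL4

theorem jB : GL4.JB := by
  intro F _ _ V _ _ _ K hK hp L hL
  classical
  set p := ringChar F with hpdef
  haveI : CharP F p := ringChar.charP F
  have hpp : p.Prime := CharP.char_is_prime F p
  haveI : Fact p.Prime := ⟨hpp⟩
  haveI hVfin : Finite V := Module.finite_of_finite F
  haveI : Finite (V ≃ₗ[F] V) :=
    Finite.of_injective (fun g : V ≃ₗ[F] V => (g : V → V)) DFunLike.coe_injective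
  haveI : Finite K := inferInstance
  obtain ⟨x, hx⟩ := exists_prime_orderOf_dvd_card' p hp
  set u : V ≃ₗ[F] V := (x : V ≃ₗ[F] V) with hu
  have huK : u ∈ K := x.2
  have hxp : x ^ p = 1 := by rw [← hx]; exact pow_orderOf_eq_one x
  have hup : u ^ p = 1 := by
    have := congrArg (fun y : K => (y : V ≃ₗ[F] V)) hxp
    simpa using this
  have hu1 : u ≠ 1 := by
    intro h
    have : x = 1 := Subtype.ext h
    rw [this, orderOf_one] at hx
    exact hpp.one_lt.ne hx
  set U : Module.End F V := (u : V →ₗ[F] V) with hU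
  have hUpow : ∀ n : ℕ, ((u ^ n : V ≃ₗ[F] V) : V →ₗ[F] V) = U ^ n := by
    intro n
    induction n with
    | zero => rfl
    | succ n ih =>
      rw [pow_succ, pow_succ, ← ih]
      rfl
  haveI : Nontrivial V := by
    by_contra hcon
    rw [not_nontrivial_iff_subsingleton] at hcon
    apply hu1
    ext v
    exact Subsingleton.elim _ _
  haveI : CharP (Module.End F V) p := by
    have hinj : Function.Injective (algebraMap F (Module.End F V)) :=
      (algebraMap F (Module.End F V)).injective
    exact charP_of_injective_algebraMap hinj p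
  set N : Module.End F V := U - 1 with hN
  have hNp : N ^ p = 0 := by
    have hc : Commute U (1 : Module.End F V) := Commute.one_right U
    have h1 := sub_pow_char_of_commute (p := p) hc
    rw [hN, h1, one_pow, ← hUpow, hup]
    ext v
    simp
  have hN0 : N ≠ 0 := by
    intro h
    apply hu1
    ext v
    have := congrArg (fun f : Module.End F V => f v) h
    simp only [hN, LinearMap.sub_apply, LinearMap.zero_apply] at this
    have h2 : U v = v := by
      have h3 : U v - (1 : Module.End F V) v = 0 := this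
      rw [sub_eq_zero] at h3
      exact h3
    exact h2
  have hex : ∃ m, N ^ m = 0 := ⟨p, hNp⟩
  set m := Nat.find hex with hm
  have hm0 : N ^ m = 0 := Nat.find_spec hex
  have hmin : ∀ i, i < m → N ^ i ≠ 0 := fun i hi => Nat.find_min hex hi
  have hm2 : 2 ≤ m := by
    by_contra hlt
    have : m = 0 ∨ m = 1 := by omega
    rcases this with h | h
    · rw [h, pow_zero] at hm0
      exact one_ne_zero hm0
    · rw [h, pow_one] at hm0
      exact hN0 hm0
  obtain ⟨j, hj⟩ : ∃ j, m = j + 2 := ⟨m - 2, by omega⟩
  have hNj : N ^ (j + 1) ≠ 0 := hmin _ (by omega)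
  obtain ⟨v, hv⟩ : ∃ v, (N ^ (j + 1)) v ≠ 0 := by
    by_contra hcon
    push Not at hcon
    apply hNj
    ext v
    simpa using hcon v
  set w := (N ^ j) v with hw
  set w' := N w with hw'
  have hw'0 : w' ≠ 0 := by
    rw [hw', hw]
    have : (N ^ (j + 1)) v = N ((N ^ j) v) := by
      rw [pow_succ']; rfl
    rwa [← this]
  have hNw' : N w' = 0 := by
    rw [hw', hw]
    have : (N ^ (j + 2)) v = N (N ((N ^ j) v)) := by
      rw [pow_succ', pow_succ']; rfl
    rw [← this, ← hj, hm0]; rfl
  have huw : u w = w + w' := by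
    have : w' = U w - w := by rw [hw', hN]; rfl
    have h2 : U w = u w := rfl
    rw [this, h2]; abel
  have huw' : u w' = w' := by
    have : N w' = U w' - w' := by rw [hN]; rfl
    rw [hNw'] at this
    have h2 : U w' = u w' := rfl
    rw [h2] at this
    exact (sub_eq_zero.1 this.symm)
  -- the line
  have hli : LinearIndependent F ![w, w'] := by
    rw [LinearIndependent.pair_iff]
    intro a b hab
    have h1 : N (a • w + b • w') = 0 := by rw [hab, map_zero]
    rw [map_add, map_smul, map_smul, hNw', smul_zero, add_zero] at h1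
    have ha : a = 0 := by
      rcases smul_eq_zero.1 h1 with h | h
      · exact h
      · exact absurd h hw'0
    refine ⟨ha, ?_⟩
    rw [ha, zero_smul, zero_add] at hab
    rcases smul_eq_zero.1 hab with h | h
    · exact h
    · exact absurd h hw'0
  set L0 : Submodule F V := span F (Set.range ![w, w']) with hL0
  have hLn : Ln L0 := by
    rw [Ln, hL0, finrank_span_eq_card hli]; simp
  have hwL : w ∈ L0 := subset_span ⟨0, rfl⟩
  have hw'L : w' ∈ L0 := subset_span ⟨1, rfl⟩
  have himle : im u L0 ≤ L0 := by
    rw [im, hL0, map_span, span_le]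
    rintro _ ⟨_, ⟨i, rfl⟩, rfl⟩
    fin_cases i
    · show u w ∈ L0
      rw [huw]; exact L0.add_mem hwL hw'L
    · show u w' ∈ L0
      rw [huw']; exact hw'L
  have him : im u L0 = L0 := im_eq_of_le himle
  obtain ⟨k, hk, hkL⟩ := hK L0 L hLn hL
  set g : V ≃ₗ[F] V := k * u * k⁻¹ with hg
  have hgK : g ∈ K := K.mul_mem (K.mul_mem hk huK) (K.inv_mem hk)
  have hgL : im g L = L := by
    rw [hg, im_mul, im_mul, im_inv_of_eq hkL, him, hkL]
  have hgp : g ^ p = 1 := by
    rw [hg, conj_pow, hup, mul_one, mul_inv_cancel]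
  -- restriction
  let r : L ≃ₗ[F] L := (g.submoduleMap L).trans (LinearEquiv.ofEq _ _ hgL)
  have hr : ∀ y : L, ((r y : L) : V) = g y := fun y => rfl
  have hrG : r ∈ sGrp K L := ⟨g, hgK, hgL, hr⟩
  let R : sGrp K L := ⟨r, hrG⟩
  have hrpow : ∀ (n : ℕ) (y : L), (((r ^ n) y : L) : V) = (g ^ n) y := by
    intro n
    induction n with
    | zero => intro y; rfl
    | succ n ih =>
      intro y
      rw [pow_succ, pow_succ]
      show (((r ^ n) (r y) : L) : V) = (g ^ n) (g y)
      rw [ih, hr]
  have hRp : R ^ p = 1 := by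
    apply Subtype.ext
    show r ^ p = 1
    ext y
    rw [hrpow, hgp]
    rfl
  have hR1 : R ≠ 1 := by
    intro h
    have h1 : r = 1 := congrArg Subtype.val h
    have hkw : k w ∈ L := by rw [← hkL]; exact apply_mem_im hwL
    have h2 : ((r ⟨k w, hkw⟩ : L) : V) = k w := by rw [h1]; rfl
    rw [hr] at h2
    have h3 : g (k w) = k w + k w' := by
      show k (u (k⁻¹ (k w))) = _
      have : k⁻¹ (k w) = w := k.symm_apply_apply w
      rw [this, huw, map_add]
    have h4 : g ((⟨k w, hkw⟩ : L) : V) = k w + k w' := h3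
    rw [h4] at h2
    have h5 : k w' = 0 := by
      have := h2
      rwa [add_eq_left] at this
    apply hw'0
    exact (LinearEquiv.map_eq_zero_iff k).1 h5
  have hord : orderOf R = p := orderOf_eq_prime hRp hR1
  rw [← hord]
  exact orderOf_dvd_natCard R

end Pool.Agent.Helper23.GL4JB
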